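import Mathlib

set_option autoImplicit false

namespace Pool.Agent.Results.MP_285f62_co.Cex

def HasTF {V : Type} (H : SimpleGraph V) : Prop :=
  ∃ T : Set (Finset V), (∀ s ∈ T, H.IsNClique 3 s) ∧ ∀ v : V, ∃! s, s ∈ T ∧ v ∈ s

def blow {V : Type} (G : SimpleGraph V) (t : ℕ) : SimpleGraph (V × Fin t) := G.comap Prod.fst

def G0 : SimpleGraph (Fin 9) :=
  SimpleGraph.fromRel fun a b => (a.val < 4 ∧ b.val < 4) ∨ (4 ≤ a.val ∧ 4 ≤ b.val) ∨
    (a.val = 4 ∧ (b.val = 2 ∨ b.val = 3))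

instance : DecidableRel G0.Adj := by unfold G0; infer_instance

instance (t : ℕ) : DecidableRel (blow G0 t).Adj := fun a b =>
  inferInstanceAs (Decidable (G0.Adj a.1 b.1))

lemma of_lab {V : Type} [Fintype V] [DecidableEq V] (H : SimpleGraph V) (f : V → ℕ)
    (h1 : ∀ v, (Finset.univ.filter fun w => f w = f v).card = 3)
    (h2 : ∀ v w, v ≠ w → f v = f w → H.Adj v w) : HasTF H := by
  refine ⟨Set.range fun v => Finset.univ.filter fun w => f w = f v, ?_, fun v => ?_⟩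
  · rintro s ⟨v, rfl⟩
    refine ⟨fun a ha b hb hab => h2 a b hab ?_, h1 v⟩
    simp only [Finset.coe_filter, Finset.mem_univ, true_and, Set.mem_ofPred_eq] at ha hb
    rw [ha, hb]
  · refine ⟨_, ⟨⟨v, rfl⟩, by simp⟩, ?_⟩
    rintro s ⟨⟨w, rfl⟩, hw⟩
    simp only [Finset.mem_filter, Finset.mem_univ, true_and] at hw
    simp only [hw]

def f2 (x : Fin 9 × Fin 2) : ℕ :=
  [0, 1, 0, 1, 0, 2, 1, 2, 2, 3, 3, 4, 3, 5, 4, 5, 4, 5].getD (2 * x.1.val + x.2.val) 0

def f3 (x : Fin 9 × Fin 3) : ℕ :=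
  [1, 2, 3, 0, 2, 3, 0, 1, 3, 0, 1, 2, 4, 7, 8, 4, 5, 8, 4, 5, 6, 5, 6, 7, 6, 7, 8].getD
    (3 * x.1.val + x.2.val) 0

lemma no0 : ¬ HasTF G0 := by
  rintro ⟨T, hT, hu⟩
  have key : ∀ s : Finset (Fin 9), G0.IsNClique 3 s → ∀ a ∈ s, a.val < 4 →
      (s ⊆ {0, 1, 2, 3}) ∨ s = {2, 3, 4} := by
    intro s hs
    obtain ⟨a, b, c, hab, hac, hbc, rfl⟩ := SimpleGraph.is3Clique_iff.1 hs
    revert a b c
    decide
  have two : ∀ s t : Finset (Fin 9), s.card = 3 → t.card = 3 → s ⊆ {0, 1, 2, 3} →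
      (t ⊆ {0, 1, 2, 3} ∨ t = {2, 3, 4}) → ∃ x, x ∈ s ∧ x ∈ t := by
    intro s t hs ht h1 h2
    by_contra hn
    have hd : Disjoint s t := Finset.disjoint_left.2 fun x hx hx' => hn ⟨x, hx, hx'⟩
    rcases h2 with h2 | rfl
    · have := Finset.card_le_card (Finset.union_subset h1 h2)
      rw [Finset.card_union_of_disjoint hd, hs, ht] at this
      revert this; decide
    · have h3 : s ⊆ {0, 1} := by
        intro x hx
        have h4 := h1 hx
        have h5 := Finset.disjoint_left.1 hd hx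
        clear hx; revert h4 h5; revert x; decide
      have := Finset.card_le_card h3
      rw [hs] at this
      revert this; decide
  obtain ⟨s, ⟨hs, h0⟩, -⟩ := hu 0
  have hs1 : s ⊆ {0, 1, 2, 3} := by
    rcases key s (hT s hs) 0 h0 (by decide) with h | rfl
    · exact h
    · exact absurd h0 (by decide)
  have h4 : ({0, 1, 2, 3} : Finset (Fin 9)) ⊆ s := by
    intro a ha
    have ha4 : a.val < 4 := by revert ha; revert a; decide
    obtain ⟨t, ⟨ht, hat⟩, -⟩ := hu a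
    obtain ⟨x, hx, hx'⟩ := two s t (hT s hs).2 (hT t ht).2 hs1 (key t (hT t ht) a hat ha4)
    rw [(hu x).unique ⟨hs, hx⟩ ⟨ht, hx'⟩]
    exact hat
  have := Finset.card_le_card h4
  rw [(hT s hs).2] at this
  revert this; decide

theorem result : ∃ (n : ℕ) (G : SimpleGraph (Fin n)) (t : ℕ),
    0 < t ∧ HasTF (blow G t) ∧ HasTF (blow G (t + 1)) ∧ ¬ HasTF G :=
  ⟨9, G0, 2, by norm_num, of_lab _ f2 (by decide +kernel) (by decide +kernel),
    of_lab _ f3 (by decide +kernel) (by decide +kernel), no0⟩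

end Pool.Agent.Results.MP_285f62_co.Cex
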